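import Pool.Agent.H86.RiD

set_option autoImplicit false

namespace Pool.Agent.Results.MP_dfd7ce_an.NotOpen

open Pool.Agent.H86.Rif

/-- The two shifts are multiplication by the two variables. -/
def ShiftsOk : Prop := IsMulBy mulZ1 (fun z _ => z) ∧ IsMulBy mulZ2 (fun _ w => w)

theorem result :
    ShiftsOk ∧
    ∃ θ : ℂ → ℂ → ℂ,
      (∀ z w, θ z w = (6 * z ^ 2 * w - (1 + z + z ^ 2)) / (6 - w * (1 + z + z ^ 2))) ∧
      IsRIF θ ∧ ¬ Splits θ ∧ (∃ S₁ S₂, IsAgler θ S₁ S₂) ∧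
      ∀ S₁ S₂ (h : IsAgler θ S₁ S₂), ¬ IsOpen (W1 h) := by
  refine ⟨⟨fun f z w hz hw => ev_a f hz hw, fun f z w hz hw => ev_b f hz hw⟩, th,
    fun _ _ => rfl, isRIF_th, not_splits, exists_agler, fun S₁ S₂ hA => ?_⟩
  haveI := hasProj S₂ hA.closed₂
  exact not_open hA

end Pool.Agent.Results.MP_dfd7ce_an.NotOpen
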